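import Mathlib
import Pool.Agent.VM.StmtsH

/-!
# PPW: the bound for prime powers (squad HUA)
-/

set_option autoImplicit false

namespace Pool.Agent.VM.H24

open Pool.Agent.VM
open Pool.Agent.Helper69_Weyl (ee)

/-- the trivial bound -/
theorem Sc_triv (k u : ℕ) (b m : ℤ) : ‖Sc k u b m‖ ≤ (u : ℝ) := by
  refine (norm_sum_le _ _).trans ?_
  rw [Finset.sum_congr rfl fun x _ => Pool.Agent.Helper69_Weyl.norm_ee _]
  rw [Finset.sum_const, Finset.card_range, nsmul_eq_mul, mul_one]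

/-- PPW -/
theorem ppw (k : ℕ) (hk : 3 ≤ k) (mor : MorStmt k) (ppb : PpbStmt k) (ppc : PpcStmt k) :
    PpwStmt k := by
  have hk1 : (1 : ℝ) ≤ (k : ℝ) := by exact_mod_cast (by omega : 1 ≤ k)
  have hk3 : (3 : ℝ) ≤ (k : ℝ) := by exact_mod_cast hk
  have hk0 : (0 : ℝ) < (k : ℝ) := by linarith
  have hC1 : (1 : ℝ) ≤ (k : ℝ) ^ 4 := one_le_pow₀ hk1
  have hkk : (k : ℝ) ≤ (k : ℝ) ^ 4 := le_self_pow₀ hk1 (by norm_num)
  have hk3' : (k : ℝ) ^ 3 ≤ (k : ℝ) ^ 4 := pow_le_pow_right₀ hk1 (by norm_num)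
  have hkinv : 1 / (k : ℝ) ≤ 1 / 3 := one_div_le_one_div_of_le (by norm_num) hk3
  have hkinv0 : 0 < 1 / (k : ℝ) := by positivity
  have hkk1 : (k : ℝ) * (1 / (k : ℝ)) = 1 := by field_simp
  refine ⟨(k : ℝ) ^ 4, hC1, ?_⟩
  intro p e
  induction e using Nat.strong_induction_on with
  | _ e ih =>
  intro b m hp hb
  have hp1 : (1 : ℝ) ≤ (p : ℝ) := by exact_mod_cast hp.one_le
  have hp0 : (0 : ℝ) < (p : ℝ) := by linarith
  have hcast : ∀ s : ℕ, ((p ^ s : ℕ) : ℝ) ^ (1 - 1 / (k : ℝ)) =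
      (p : ℝ) ^ ((s : ℝ) * (1 - 1 / (k : ℝ))) := by
    intro s
    rw [Nat.cast_pow, ← Real.rpow_natCast, ← Real.rpow_mul hp0.le]
  have hbig : ∀ s : ℕ, (1 : ℝ) ≤ (p : ℝ) ^ ((s : ℝ) * (1 - 1 / (k : ℝ))) := by
    intro s
    apply Real.one_le_rpow hp1
    apply mul_nonneg (Nat.cast_nonneg _)
    linarith
  rw [hcast e]
  have hbe := hbig e
  -- the exponent of `p` in `k`
  obtain ⟨τ, hτ, hτ'⟩ : ∃ τ : ℕ, p ^ τ ∣ k ∧ ¬ p ^ (τ + 1) ∣ k := by
    have hfin : FiniteMultiplicity p k :=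
      Nat.finiteMultiplicity_iff.2 ⟨hp.one_lt.ne', by omega⟩
    exact ⟨multiplicity p k, pow_multiplicity_dvd _ _, hfin.not_pow_dvd_of_multiplicity_lt
      (Nat.lt_succ_self _)⟩
  have small : ∀ x : ℝ, x ≤ (k : ℝ) ^ 4 → x ≤ (k : ℝ) ^ 4 *
      (p : ℝ) ^ ((e : ℝ) * (1 - 1 / (k : ℝ))) := by
    intro x hx
    nlinarith
  by_cases he : 2 * τ + 2 ≤ e
  · by_cases h1 : ((p : ℤ) ^ τ) ∣ m
    · by_cases h2 : ((p : ℤ) ^ (τ + 1)) ∣ m
      · obtain ⟨-, hc2, hc3, hc4⟩ := ppc p e τ b m hp hb hτ hτ' he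
        by_cases h3 : k ≤ e
        · by_cases h4 : ((p : ℤ) ^ (k - 1)) ∣ m
          · obtain ⟨m', hm'⟩ := h4
            rw [hc2 m' hm' h3, norm_mul, norm_pow, Complex.norm_natCast]
            have h5 := ih (e - k) (by omega) b m' hp hb
            rw [hcast] at h5
            have h6 : (p : ℝ) ^ (k - 1) * ((k : ℝ) ^ 4 *
                (p : ℝ) ^ (((e - k : ℕ) : ℝ) * (1 - 1 / (k : ℝ)))) =
                (k : ℝ) ^ 4 * (p : ℝ) ^ ((e : ℝ) * (1 - 1 / (k : ℝ))) := by
              rw [← Real.rpow_natCast (p : ℝ) (k - 1), mul_left_comm, ← Real.rpow_add hp0]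
              congr 2
              rw [Nat.cast_sub (by omega : 1 ≤ k), Nat.cast_sub h3, Nat.cast_one]
              linear_combination hkk1
            rw [← h6]
            exact mul_le_mul_of_nonneg_left h5 (by positivity)
          · rw [hc3 h2 h4 h3, norm_zero]
            positivity
        · have h5 := hc4 h2 (by omega)
          refine h5.trans ?_
          have h6 : (p : ℝ) ^ (e - 1) ≤ (p : ℝ) ^ ((e : ℝ) * (1 - 1 / (k : ℝ))) := by
            rw [← Real.rpow_natCast]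
            apply Real.rpow_le_rpow_of_exponent_le hp1
            rw [Nat.cast_sub (by omega : 1 ≤ e), Nat.cast_one]
            have h7 : (e : ℝ) ≤ (k : ℝ) := by exact_mod_cast (by omega : e ≤ k)
            have h8 : (e : ℝ) * (1 / (k : ℝ)) ≤ 1 :=
              (mul_le_mul_of_nonneg_right h7 hkinv0.le).trans (le_of_eq hkk1)
            linarith
          calc (p : ℝ) ^ (e - 1) ≤ (p : ℝ) ^ ((e : ℝ) * (1 - 1 / (k : ℝ))) := h6
            _ = 1 * (p : ℝ) ^ ((e : ℝ) * (1 - 1 / (k : ℝ))) := (one_mul _).symm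
            _ ≤ _ := mul_le_mul_of_nonneg_right hC1 (by positivity)
      · have h5 := ppb p e τ b m hp hb hτ hτ' he h1 h2
        refine h5.trans ?_
        apply mul_le_mul_of_nonneg_left _ (by positivity)
        rw [← Real.rpow_natCast]
        apply Real.rpow_le_rpow_of_exponent_le hp1
        have h6 : 3 * ((e + 1) / 2) ≤ 2 * e := by omega
        have h7 : (3 : ℝ) * (((e + 1) / 2 : ℕ) : ℝ) ≤ 2 * (e : ℝ) := by exact_mod_cast h6
        have he0 : (0 : ℝ) ≤ (e : ℝ) := Nat.cast_nonneg _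
        nlinarith
    · rw [(ppc p e τ b m hp hb hτ hτ' he).1 h1, norm_zero]
      positivity
  · push Not at he
    rcases Nat.eq_zero_or_pos τ with h0 | h0
    · subst h0
      rcases Nat.eq_zero_or_pos e with h1 | h1
      · subst h1
        apply small
        refine (Sc_triv _ _ _ _).trans ?_
        rw [pow_zero, Nat.cast_one]
        exact hC1
      · have he1 : e = 1 := by omega
        subst he1
        rw [pow_one]
        by_cases h2 : k < p
        · refine (mor p b m hp h2 hb).trans ?_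
          rw [Nat.cast_one, one_mul]
          apply mul_le_mul_of_nonneg_right _ (by positivity)
          have h3 : (k : ℝ) ^ 2 ≤ (k : ℝ) ^ 4 := pow_le_pow_right₀ hk1 (by norm_num)
          nlinarith
        · apply small
          refine (Sc_triv _ _ _ _).trans ?_
          have h3 : (p : ℝ) ≤ (k : ℝ) := by exact_mod_cast (by omega : p ≤ k)
          linarith
    · apply small
      refine (Sc_triv _ _ _ _).trans ?_
      have h1 : p ^ e ≤ k ^ 3 := by
        have h2 : p ^ τ ≤ k := Nat.le_of_dvd (by omega) hτ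
        calc p ^ e ≤ p ^ (τ * 3) := Nat.pow_le_pow_right hp.pos (by omega)
          _ = (p ^ τ) ^ 3 := by rw [pow_mul]
          _ ≤ k ^ 3 := Nat.pow_le_pow_left h2 3
      have h2 : ((p ^ e : ℕ) : ℝ) ≤ (k : ℝ) ^ 3 := by exact_mod_cast h1
      linarith

end Pool.Agent.VM.H24
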